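import Mathlib

set_option autoImplicit false

namespace Pool.Agent.Results.MP_d5c33c_co.Bound

open Finset Matrix

/-- A coherent configuration on `X` with colour set `S`: `r x y` is the colour of `(x, y)`,
`p c a b` is the intersection number `p^c_{ab}` and `k a` the valency of `a`. -/
structure CC (X S : Type) [Fintype X] [DecidableEq S] where
  r : X → X → S
  p : S → S → S → ℕ
  k : S → ℕ
  surj : ∀ a, ∃ x y, r x y = a
  diag : ∀ x y z, r x x = r y z → y = z
  transpose : ∀ a, ∃ b, ∀ x y, r x y = a ↔ r y x = b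
  inter : ∀ a b x y, #{z | r x z = a ∧ r z y = b} = p (r x y) a b
  val : ∀ x y, #{z | r x z = r x y} = k (r x y)

variable {X S : Type} [Fintype X] [Fintype S] [DecidableEq S] (C : CC X S)

noncomputable def nabla (c a b : S) : ℝ := √(C.k c / (C.k a * C.k b)) * C.p c a b

noncomputable def O : Matrix S S ℝ := fun a b => ∑ p, ∑ q, nabla C a p q * nabla C b p q

omit [Fintype S] in
lemma tr (c a b : S) {x y x' y' z : X} (h : C.r x y = C.r x' y') (h1 : C.r x z = a)
    (h2 : C.r z y = b) : ∃ w, C.r x' w = a ∧ C.r w y' = b := by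
  have : 0 < #{w | C.r x' w = a ∧ C.r w y' = b} := by
    rw [C.inter, ← h, ← C.inter]; exact card_pos.mpr ⟨z, by simp [h1, h2]⟩
  obtain ⟨w, hw⟩ := card_pos.mp this
  exact ⟨w, (mem_filter.mp hw).2⟩

omit [Fintype S] in
lemma ends : ∃ e f : S → S, (∀ x y, e (C.r x y) = C.r x x) ∧ (∀ x y, f (C.r x y) = C.r y y) := by
  choose s t h using C.surj
  refine ⟨fun a => C.r (s a) (s a), fun a => C.r (t a) (t a), fun x y => ?_, fun x y => ?_⟩
  · obtain ⟨w, h1, -⟩ := tr C (C.r x y) _ _ (h (C.r x y)).symm (z := x) rfl rfl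
    rw [← h1, ← C.diag _ _ _ h1.symm]
  · obtain ⟨w, -, h1⟩ := tr C (C.r x y) _ _ (h (C.r x y)).symm (z := y) rfl rfl
    rw [← h1, C.diag _ _ _ h1.symm]

lemma sumK (e : S → S) (he : ∀ x y, e (C.r x y) = C.r x x) (G : S → ℝ) (x : X) :
    ∑ a with e a = C.r x x, C.k a * G a = ∑ u, G (C.r x u) := by
  rw [← sum_fiberwise_of_maps_to (t := {a | e a = C.r x x}) (g := C.r x) (by simp [he])]
  refine sum_congr rfl fun a ha => ?_
  obtain ⟨s, t, rfl⟩ := C.surj a
  rw [mem_filter, he] at ha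
  obtain ⟨w, hw, -⟩ := tr C (C.r s s) _ _ ha.2 (z := t) rfl rfl
  rw [sum_congr rfl (g := fun _ => G (C.r s t)) fun u hu => by rw [(mem_filter.mp hu).2], sum_const,
    ← hw, C.val, nsmul_eq_mul]

lemma main (hn : 2 ≤ Fintype.card X) (g : S → ℝ) : ∃ h : S → S → ℝ,
    (∀ a, ∑ p, ∑ q, h p q * C.p a p q = g a) ∧ ∑ p, C.k p * ∑ q, C.k q * h p q ^ 2 ≤
      ∑ a, C.k a * ((Fintype.card X - 1) / Fintype.card X * g a ^ 2) := by
  classical
  obtain ⟨e, f, he, hf⟩ := ends C
  set n : ℝ := (Fintype.card X : ℝ) with hn'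
  have h2 : (2 : ℝ) ≤ n := by rw [hn']; exact_mod_cast hn
  obtain ⟨N, hN⟩ : ∃ N : S → ℝ, ∀ d, ∑ u, (if C.r u u = d then 1 else 0) = N d := ⟨_, fun _ => rfl⟩
  have N1 : ∀ y, 1 ≤ N (C.r y y) := fun y => by
    rw [← hN]; exact le_trans (by simp) (single_le_sum (fun u _ => by positivity) (mem_univ y))
  have Nn : ∀ d, N d ≤ n := fun d => by
    rw [← hN]; exact (sum_le_sum (g := fun _ => 1) fun u _ => by split_ifs <;> simp).trans (by simp [hn'])
  have N0 : ∀ y, N (C.r y y) ≠ 0 := fun y => by linarith [N1 y]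
  obtain ⟨γ, hγ⟩ : ∃ γ : S → S → ℝ, ∀ x y,
      ∑ u, (if C.r u u = C.r y y then g (C.r x u) - γ (C.r x x) (C.r u u) else 0) = 0 := by
    refine ⟨fun c d => (∑ a with e a = c, C.k a * if f a = d then g a else 0) / N d, fun x y => ?_⟩
    simp only [sumK C e he, hf]
    trans ∑ u, ((if C.r u u = C.r y y then g (C.r x u) else 0) - (if C.r u u = C.r y y then 1 else 0) *
      ((∑ u, if C.r u u = C.r y y then g (C.r x u) else 0) / N (C.r y y)))
    · refine sum_congr rfl fun u _ => ?_
      split_ifs with h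
      · rw [h, one_mul]
      · simp
    · rw [sum_sub_distrib, ← sum_mul, hN, mul_div_cancel₀ _ (N0 y), sub_self]
  have hd : ∀ z y, C.r z y = C.r z z ↔ z = y := fun z y =>
    ⟨fun h => C.diag _ _ _ h.symm, fun h => by rw [h]⟩
  refine ⟨fun p q => if e q = f p then (g p - γ (e p) (f p)) * ((if q = e q then 1 else 0) -
    (if e q = f q then 1 else 0) / N (f q)) + γ (e p) (f q) / n else 0, fun a => ?_, ?_⟩
  · obtain ⟨x, y, rfl⟩ := C.surj a
    have : ∀ H : S → S → ℝ, ∑ p, ∑ q, H p q * C.p (C.r x y) p q = ∑ z, H (C.r x z) (C.r z y) := by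
      intro H
      simp only [← C.inter, card_filter, Nat.cast_sum, mul_sum]
      rw [sum_congr rfl fun p _ => sum_comm, sum_comm]
      simp [ite_and]
    rw [this]
    simp only [he, hf, hd, if_true, mul_sub, mul_ite, mul_one, mul_zero, ← mul_div_assoc, sum_add_distrib,
      sum_sub_distrib, ← sum_div, hγ, sum_ite_eq', mem_univ, sum_const, card_univ, nsmul_eq_mul, ← hn']
    field_simp
    ring
  · obtain ⟨Γ, hΓ⟩ : ∃ Γ : S → ℝ, ∀ c, ∑ y, γ c (C.r y y) ^ 2 = Γ c := ⟨_, fun _ => rfl⟩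
    have h3 : ∀ p, ∑ q, C.k q * (if e q = f p then (g p - γ (e p) (f p)) * ((if q = e q then 1 else 0) -
        (if e q = f q then 1 else 0) / N (f q)) + γ (e p) (f q) / n else 0) ^ 2 =
        (g p - γ (e p) (f p)) ^ 2 * (1 - 1 / N (f p)) + Γ (e p) / n ^ 2 := fun p => by
      obtain ⟨x, z, rfl⟩ := C.surj p
      simp only [ite_pow, ne_eq, OfNat.ofNat_ne_zero, not_false_eq_true, zero_pow, mul_ite, mul_zero,
        ← sum_filter, hf, he, sumK C e he, hd]
      generalize g (C.r x z) - γ (C.r x x) (C.r z z) = G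
      trans ∑ y, ((if z = y then G ^ 2 * (1 - 2 / N (C.r z z)) + 2 * G * γ (C.r x x) (C.r z z) / n else 0)
        + (if C.r y y = C.r z z then 1 else 0) * (G ^ 2 / N (C.r z z) ^ 2 -
          2 * G * γ (C.r x x) (C.r z z) / n / N (C.r z z)) + γ (C.r x x) (C.r y y) ^ 2 / n ^ 2)
      · refine sum_congr rfl fun y _ => ?_
        by_cases h : z = y
        · subst h; simp only [if_true]; ring
        · by_cases h' : C.r z z = C.r y y
          · simp only [h, h', if_true, if_false]; ring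
          · simp only [h, h', Ne.symm h', if_false]; ring
      · simp only [sum_add_distrib, ← sum_mul, hN, ← sum_div, hΓ, sum_ite_eq, mem_univ, if_true]
        have := N0 z
        field_simp
        ring
    simp only [h3]
    rw [← sum_fiberwise (s := univ) (g := e), ← sum_fiberwise (s := univ) (g := e)
      (f := fun a => C.k a * ((n - 1) / n * g a ^ 2))]
    refine sum_le_sum fun c _ => ?_
    by_cases hc : ∃ a, e a = c
    · obtain ⟨a, rfl⟩ := hc
      obtain ⟨x, y, rfl⟩ := C.surj a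
      simp only [he, sumK C e he, hf]
      have h4 : ∑ u, (g (C.r x u) - γ (C.r x x) (C.r u u)) * γ (C.r x x) (C.r u u) = 0 := by
        rw [← sum_fiberwise_of_maps_to (t := univ.image fun u => C.r u u) (g := fun u => C.r u u)
          (by simp)]
        refine sum_eq_zero fun d hd => ?_
        obtain ⟨y, -, rfl⟩ := mem_image.mp hd
        have := congrArg (· * γ (C.r x x) (C.r y y)) (hγ x y)
        simp only [zero_mul, sum_mul] at this
        rw [sum_filter]
        refine Eq.trans ?_ this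
        exact sum_congr rfl fun u _ => by by_cases h : C.r u u = C.r y y <;> simp [h]
      have h5 : ∑ u, g (C.r x u) ^ 2 = ∑ u, (g (C.r x u) - γ (C.r x x) (C.r u u)) ^ 2 + Γ (C.r x x) := by
        rw [← hΓ, ← add_zero (_ + _), ← mul_zero 2, ← h4, mul_sum, ← sum_add_distrib, ← sum_add_distrib]
        exact sum_congr rfl fun u _ => by ring
      have h6 : 0 ≤ Γ (C.r x x) := by rw [← hΓ]; positivity
      rw [← mul_sum, h5, sum_add_distrib, mul_add, mul_sum, sum_const, card_univ, nsmul_eq_mul, ← hn']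
      refine add_le_add (sum_le_sum fun u _ => ?_) ?_
      · rw [mul_comm, sub_div, div_self (by linarith)]
        gcongr
        · linarith [N1 u]
        · exact Nn _
      · rw [show n * (Γ (C.r x x) / n ^ 2) = 1 / n * Γ (C.r x x) by field_simp]
        gcongr
        linarith
    · simp [filter_eq_empty_iff.mpr fun a _ h => hc ⟨a, h⟩]

theorem result {X S : Type} [Fintype X] [Fintype S] [DecidableEq S] (C : CC X S)
    (hn : 2 ≤ Fintype.card X) (l : ℝ) (v : S → ℝ) (hv : v ≠ 0) (h : O C *ᵥ v = l • v) :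
    (Fintype.card X : ℝ) / (Fintype.card X - 1) ≤ l := by
  have hk : ∀ a, (0 : ℝ) < C.k a := fun a => by
    obtain ⟨x, y, rfl⟩ := C.surj a
    rw [← C.val]; exact_mod_cast card_pos.mpr ⟨y, by simp⟩
  obtain ⟨H, h1, h2⟩ := main C hn fun a => v a / √(C.k a)
  have h2' : (2 : ℝ) ≤ Fintype.card X := by exact_mod_cast hn
  generalize (Fintype.card X : ℝ) = n at *
  have hV : 0 < ∑ a, v a ^ 2 := by
    obtain ⟨a, ha⟩ := Function.ne_iff.mp hv
    exact sum_pos' (fun _ _ => by positivity) ⟨a, mem_univ _, sq_pos_of_ne_zero ha⟩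
  have e1 : ∑ p : S × S, (∑ a, v a * nabla C a p.1 p.2) ^ 2 = l * ∑ a, v a ^ 2 := by
    trans ∑ a, v a * (O C *ᵥ v) a
    · simp only [sq, sum_mul, mul_sum, mulVec, dotProduct, O]
      rw [sum_comm]
      refine sum_congr rfl fun a _ => ?_
      rw [sum_comm]
      refine sum_congr rfl fun b _ => ?_
      rw [Fintype.sum_prod_type]
      exact sum_congr rfl fun _ _ => sum_congr rfl fun _ _ => by ring
    · rw [h, mul_sum]
      exact sum_congr rfl fun _ _ => by simp; ring
  have e2 : ∑ p : S × S, √(C.k p.1 * C.k p.2) * H p.1 p.2 * ∑ a, v a * nabla C a p.1 p.2 =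
      ∑ a, v a ^ 2 := by
    simp only [mul_sum]
    rw [sum_comm]
    refine sum_congr rfl fun a _ => ?_
    have := Real.sqrt_pos.mpr (hk a)
    rw [show v a ^ 2 = v a * √(C.k a) * (v a / √(C.k a)) by field_simp, ← h1, ← Fintype.sum_prod_type',
      mul_sum]
    refine sum_congr rfl fun p _ => ?_
    have := Real.sqrt_pos.mpr (mul_pos (hk p.1) (hk p.2))
    rw [nabla, Real.sqrt_div (hk a).le]
    field_simp
  have e3 : ∑ p : S × S, (√(C.k p.1 * C.k p.2) * H p.1 p.2) ^ 2 ≤ (n - 1) / n * ∑ a, v a ^ 2 := by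
    convert h2 using 1
    · simp only [mul_sum, ← Fintype.sum_prod_type']
      exact sum_congr rfl fun p _ => by
        rw [mul_pow, Real.sq_sqrt (mul_pos (hk _) (hk _)).le, mul_assoc]
    · rw [mul_sum]
      exact sum_congr rfl fun a _ => by
        have := hk a
        rw [div_pow, Real.sq_sqrt this.le]; field_simp
  have cs := sum_mul_sq_le_sq_mul_sq univ (fun p : S × S => √(C.k p.1 * C.k p.2) * H p.1 p.2)
    fun p => ∑ a, v a * nabla C a p.1 p.2
  have h0 : 0 ≤ l * ∑ a, v a ^ 2 := by rw [← e1]; positivity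
  rw [e1, e2] at cs
  have := cs.trans (mul_le_mul_of_nonneg_right e3 h0)
  generalize ∑ a, v a ^ 2 = V at *
  rw [div_le_iff₀ (by linarith)]
  have h3 : V ^ 2 * n ≤ V ^ 2 * (l * (n - 1)) := by
    calc _ ≤ (n - 1) / n * V * (l * V) * n := by gcongr
      _ = _ := by field_simp
  exact le_of_mul_le_mul_left h3 (by positivity)

end Pool.Agent.Results.MP_d5c33c_co.Bound
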